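import Pool.Agent.MWGQ.Stmts

/-!
# Row PRB of the table mwgq
-/

namespace Pool.Agent.MWGQ.H80

open Pool.Agent.Helper14_MV Pool.Agent.Helper2_MV
open Pool.Agent.MWK (pre)
open Pool.Agent.MWGN (Nm WC WT Tau Ns nl sg nn N1 N2 K0 Kb Kc T2)

theorem mem_pw (k : ℕ) (u : List ℕ) (a : ℕ) (h : a ∈ pw k u) : a ∈ u := by
  unfold pw at h
  rw [List.mem_flatten] at h
  obtain ⟨v, hv, ha⟩ := h
  rw [List.eq_of_mem_replicate hv] at ha
  exact ha

theorem prb : PrbStmt := by
  intro n L C m j hj hL hC R
  obtain ⟨k, rfl⟩ : ∃ k, m = j + (k + 1) := ⟨m - j - 1, by omega⟩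
  have h1 : ∃ B, bd n (sg L) (sg C) (j + (k + 1)) ++ R = bd n (sg L) (sg C) j ++ L j :: B := by
    refine ⟨?_, ?_⟩
    rotate_left
    · unfold bd
      rw [List.range_add, List.flatMap_append, List.append_assoc, List.range_succ_eq_map,
        List.map_cons, List.flatMap_cons, Nat.add_zero]
      simp only [sg, List.cons_append, List.nil_append]
      rfl
  obtain ⟨B, h1⟩ := h1
  rw [h1]
  apply MWK.pre_split
  intro hm
  unfold bd at hm
  rw [List.mem_flatMap] at hm
  obtain ⟨i, hi, hm⟩ := hm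
  rw [List.mem_range] at hi
  rw [List.mem_append] at hm
  rcases hm with hm | hm
  · simp only [sg, List.mem_singleton] at hm
    have := hL j (by omega) i (by omega) hm
    omega
  · have h2 := mem_pw _ _ _ hm
    simp only [sg, List.mem_singleton] at h2
    exact hC i (by omega) j (by omega) h2.symm

end Pool.Agent.MWGQ.H80
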